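import Pool.Agent.W602.GT.Der

/-!
One-parameter groups and derivations: general lemmas (for `Pool.Agent.Y192.KC.St_red`).
-/

set_option autoImplicit false
set_option linter.unusedVariables false
set_option linter.unusedSectionVars false

namespace Pool.Agent.Y270.KC

open MvPolynomial

section grade

variable {K : Type} [Field K] [Algebra ℂ K] (δ : Derivation ℂ K K)

/-- A vanishing sum of eigenvectors of a derivation with integral eigenvalues can be twisted. -/
theorem grade {α : Type} (S : Finset α) (μ : α → K) (κ : α → ℤ)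
    (hμ : ∀ a ∈ S, δ (μ a) = (κ a : ℂ) • μ a) (h0 : ∑ a ∈ S, μ a = 0) (f : ℤ → ℂ) :
    ∑ a ∈ S, f (κ a) • μ a = 0 := by
  classical
  have hpow : ∀ N : ℕ, ∑ a ∈ S, ((κ a : ℂ) ^ N) • μ a = 0 := by
    intro N
    induction N with
    | zero => simpa using h0
    | succ N ih =>
      have h1 := congrArg δ ih
      rw [map_zero, map_sum] at h1
      rw [← h1]
      refine Finset.sum_congr rfl fun a ha => ?_
      rw [Derivation.map_smul, hμ a ha, smul_smul, pow_succ]
  have hpoly : ∀ q : Polynomial ℂ, ∑ a ∈ S, (q.eval (κ a : ℂ)) • μ a = 0 := by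
    intro q
    induction q using Polynomial.induction_on' with
    | add p q hp hq =>
      simp only [Polynomial.eval_add, add_smul, Finset.sum_add_distrib, hp, hq, add_zero]
    | monomial n c =>
      simp only [Polynomial.eval_monomial, mul_smul, ← Finset.smul_sum, hpow, smul_zero]
  have h1 := hpoly (Lagrange.interpolate (S.image κ) (fun k : ℤ => (k : ℂ)) f)
  rw [← h1]
  refine Finset.sum_congr rfl fun a ha => ?_
  congr 1
  exact (Lagrange.eval_interpolate_at_node _ (fun x _ y _ h => by exact_mod_cast h)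
    (Finset.mem_image_of_mem κ ha)).symm

variable {σ : Type} [Fintype σ] (x : σ → K) (lam : σ → ℤ) (hx : ∀ i, δ (x i) = (lam i : ℂ) • x i)

include hx in
theorem der_mon (a : σ → ℕ) :
    δ (∏ i, x i ^ a i) = ((∑ i, lam i * a i : ℤ) : ℂ) • ∏ i, x i ^ a i := by
  classical
  have hpow : ∀ (j : σ) (n : ℕ), δ (x j ^ n) = ((lam j * n : ℤ) : ℂ) • x j ^ n := by
    intro j n
    rw [δ.leibniz_pow, hx]
    cases n with
    | zero => simp
    | succ n =>
      simp only [nsmul_eq_mul, smul_eq_mul, Nat.add_sub_cancel]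
      simp only [Algebra.smul_def, map_intCast]
      push_cast
      ring
  have hs : ∀ s : Finset σ, δ (∏ j ∈ s, x j ^ a j)
      = ((∑ j ∈ s, lam j * a j : ℤ) : ℂ) • ∏ j ∈ s, x j ^ a j := by
    intro s
    induction s using Finset.induction_on with
    | empty => simp
    | insert j s hj ih =>
      rw [Finset.prod_insert hj, Finset.sum_insert hj, δ.leibniz, ih, hpow]
      simp only [smul_eq_mul, Algebra.smul_def, map_intCast]
      push_cast
      ring
  exact hs Finset.univ

include hx in
/-- the relations between eigenvectors are invariant under the one-parameter group -/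
theorem twist (P : MvPolynomial σ ℂ) (hP : aeval x P = 0) (z : ℂ) (hz : z ≠ 0) :
    aeval (fun i => (z ^ lam i) • x i) P = 0 := by
  classical
  rw [aeval_def, eval₂_eq'] at hP ⊢
  have h1 := grade δ P.support (fun a => algebraMap ℂ K (P.coeff a) * ∏ i, x i ^ a i)
    (fun a => ∑ i, lam i * a i) (fun a _ => by
      rw [← Algebra.smul_def, Derivation.map_smul, der_mon δ x lam hx, smul_comm]) hP
    (fun k => z ^ k)
  rw [← h1]
  refine Finset.sum_congr rfl fun a _ => ?_
  have h2 : ∏ i, ((z ^ lam i) • x i) ^ a i = (z ^ (∑ i, lam i * a i)) • ∏ i, x i ^ a i := by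
    have h3 : z ^ (∑ i, lam i * (a i : ℤ)) = ∏ i, (z ^ lam i) ^ a i := by
      have h4 : ∀ s : Finset σ, z ^ (∑ i ∈ s, lam i * (a i : ℤ)) = ∏ i ∈ s, (z ^ lam i) ^ a i := by
        intro s
        induction s using Finset.induction_on with
        | empty => simp
        | insert j s hj ih =>
          rw [Finset.sum_insert hj, Finset.prod_insert hj, zpow_add₀ hz, ih, zpow_mul, zpow_natCast]
      exact h4 Finset.univ
    rw [h3, ← Finset.prod_smul]
    exact Finset.prod_congr rfl fun i _ => smul_pow _ _ _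
  change algebraMap ℂ K (P.coeff a) * ∏ i, ((z ^ lam i) • x i) ^ a i = _
  rw [h2]
  simp only [Algebra.smul_def]
  ring

include hx in
/-- the one-parameter group acts on the complex points -/
theorem twist_point (v : σ → ℂ) (hv : ∀ P : MvPolynomial σ ℂ, aeval x P = 0 → eval v P = 0)
    (z : ℂ) (hz : z ≠ 0) (P : MvPolynomial σ ℂ) (hP : aeval x P = 0) :
    eval (fun i => z ^ lam i * v i) P = 0 := by
  have h1 : aeval x (aeval (fun i => (z ^ lam i) • (X i : MvPolynomial σ ℂ)) P) = 0 := by
    rw [← twist δ x lam hx P hP z hz, ← AlgHom.comp_apply, comp_aeval]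
    congr 2
    funext i
    simp
  have h2 := hv _ h1
  rw [← h2]
  have h3 : ∀ Q : MvPolynomial σ ℂ, eval v Q = aeval v Q := fun Q => rfl
  have h4 : eval (fun i => z ^ lam i * v i) P = aeval (fun i => z ^ lam i * v i) P := rfl
  rw [h3, h4, ← AlgHom.comp_apply, comp_aeval]
  congr 2
  funext i
  simp [smul_eq_mul]

end grade

/-- algebraic independence of the homogeneous coordinates on the cone -/
theorem indep_cone {L : Type} [Field L] [Algebra ℂ L] {n : ℕ} (t : Fin (n + 1) → L)
    (h0 : t 0 ≠ 0) (hy : AlgebraicIndependent ℂ (fun i : Fin n => t i.succ / t 0))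
    {K : Type} [Field K] [Algebra ℂ K] [Algebra L K] [IsScalarTower ℂ L K] (τ : K)
    (hτ : Transcendental L τ) : AlgebraicIndependent ℂ (fun i => algebraMap L K (t i) * τ) := by
  classical
  rw [algebraicIndependent_iff]
  intro p hp
  have hτ' : Transcendental L (algebraMap L K (t 0) * τ) := by
    intro h
    apply hτ
    have h1 : τ = algebraMap L K (t 0)⁻¹ * (algebraMap L K (t 0) * τ) := by
      rw [← mul_assoc, ← map_mul, inv_mul_cancel₀ h0, map_one, one_mul]
    rw [h1]
    exact (isAlgebraic_algebraMap _).mul h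
  let E : MvPolynomial (Fin (n + 1)) ℂ →ₐ[ℂ] Polynomial (MvPolynomial (Fin n) ℂ) :=
    aeval (Fin.cons (α := fun _ => Polynomial (MvPolynomial (Fin n) ℂ)) Polynomial.X
      (fun i => Polynomial.C (X i) * Polynomial.X))
  let Ψ : Polynomial (MvPolynomial (Fin n) ℂ) →ₐ[ℂ] K :=
    (((Polynomial.aeval (algebraMap L K (t 0) * τ) : Polynomial L →ₐ[L] K).restrictScalars ℂ).comp
      (Polynomial.mapAlgHom (aeval (fun i : Fin n => t i.succ / t 0))))
  have hΨ : Function.Injective Ψ := by
    change Function.Injective (fun q => Polynomial.aeval (algebraMap L K (t 0) * τ)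
      (Polynomial.map ((aeval (fun i : Fin n => t i.succ / t 0) :
        MvPolynomial (Fin n) ℂ →ₐ[ℂ] L) : MvPolynomial (Fin n) ℂ →+* L) q))
    refine Function.Injective.comp (transcendental_iff_injective.1 hτ') ?_
    exact Polynomial.map_injective _ hy
  have hE : Ψ (E p) = 0 := by
    rw [← hp, ← AlgHom.comp_apply]
    congr 1
    apply MvPolynomial.algHom_ext
    intro i
    rw [AlgHom.comp_apply, aeval_X, aeval_X]
    refine Fin.cases ?_ (fun j => ?_) i
    · simp [Ψ]
    · have h1 : algebraMap L K (t 0) ≠ 0 := (map_ne_zero _).2 h0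
      simp [Ψ]
      field_simp
  have hE0 : E p = 0 := hΨ (by rw [hE, map_zero])
  have hX : (X 0 : MvPolynomial (Fin (n + 1)) ℂ) * p = 0 := by
    apply MvPolynomial.funext
    intro v
    rw [map_mul, map_zero, eval_X]
    by_cases hv : v 0 = 0
    · rw [hv, zero_mul]
    · let Φ : Polynomial (MvPolynomial (Fin n) ℂ) →+* ℂ :=
        Polynomial.eval₂RingHom (eval (fun i : Fin n => v i.succ / v 0)) (v 0)
      have h1 : (Φ.comp (E : MvPolynomial (Fin (n + 1)) ℂ →+* _)) = eval v := by
        apply MvPolynomial.ringHom_ext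
        · intro r
          simp [Φ, E, MvPolynomial.algebraMap_eq,
            IsScalarTower.algebraMap_apply ℂ (MvPolynomial (Fin n) ℂ)
              (Polynomial (MvPolynomial (Fin n) ℂ))]
        · intro i
          refine Fin.cases ?_ (fun j => ?_) i
          · simp [Φ, E]
          · simp [Φ, E]
            field_simp
      have h2 : eval v p = Φ (E p) := by rw [← h1]; rfl
      rw [h2, hE0, map_zero, mul_zero]
  exact (mul_eq_zero.1 hX).resolve_left (X_ne_zero _)

/-- derivations can be prescribed on an algebraically independent family -/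
theorem exists_der_ind {K : Type} [Field K] [Algebra ℂ K] {ι : Type} (T : ι → K)
    (hT : AlgebraicIndependent ℂ T) (c : ι → K) :
    ∃ D : Derivation ℂ K K, ∀ i, D (T i) = c i := by
  classical
  obtain ⟨B, hB, hB'⟩ := exists_isTranscendenceBasis_superset (R := ℂ) (s := Set.range T)
    hT.coe_range
  have hinj : Function.Injective T := hT.injective
  let c' : B → K := fun b => if h : ∃ i, T i = b then c h.choose else 0
  obtain ⟨D, hD⟩ := Pool.Agent.W602.GT.exists_der ((↑) : B → K) hB' c'
  refine ⟨D, fun i => ?_⟩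
  have h1 := hD ⟨T i, hB ⟨i, rfl⟩⟩
  have h2 : ∃ j, T j = ((⟨T i, hB ⟨i, rfl⟩⟩ : B) : K) := ⟨i, rfl⟩
  simp only [c'] at h1
  rw [dif_pos h2] at h1
  have h3 : h2.choose = i := hinj h2.choose_spec
  rw [h3] at h1
  exact h1

/-- scaling of a weighted homogeneous polynomial -/
theorem aeval_wh {σ A : Type} [CommRing A] [Algebra ℂ A] [Fintype σ] {w : σ → ℕ} {D : ℕ}
    {B : MvPolynomial σ ℂ} (hB : IsWeightedHomogeneous w B D) (s : A) (x : σ → A) :
    aeval (fun i => s ^ w i * x i) B = s ^ D * aeval x B := by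
  classical
  rw [aeval_def, aeval_def, eval₂_eq', eval₂_eq', Finset.mul_sum]
  refine Finset.sum_congr rfl fun a ha => ?_
  have h1 : ∑ i, w i * a i = D := by
    have h2 := hB (mem_support_iff.1 ha)
    rw [Finsupp.weight_apply, Finsupp.sum_fintype _ _ (by simp)] at h2
    simpa [mul_comm] using h2
  have h3 : ∏ i, (s ^ w i * x i) ^ a i = s ^ D * ∏ i, x i ^ a i := by
    rw [← h1, ← Finset.prod_pow_eq_pow_sum, ← Finset.prod_mul_distrib]
    refine Finset.prod_congr rfl fun i _ => ?_
    rw [mul_pow, pow_mul]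
  rw [h3]
  ring

end Pool.Agent.Y270.KC
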