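import Pool.Agent.Y270.KC.Pre
import Pool.Agent.Y192.KC.Stm

/-!
`Pool.Agent.Y192.KC.St_red`: one-parameter groups give `G_m`-curves through general points.
-/

set_option autoImplicit false
set_option linter.unusedVariables false
set_option linter.unusedSectionVars false

namespace Pool.Agent.Y270.KC

open MvPolynomial

theorem zpow_sum {ι : Type} (S : Finset ι) (z : ℂ) (hz : z ≠ 0) (f : ι → ℤ) :
    z ^ (∑ i ∈ S, f i) = ∏ i ∈ S, z ^ f i := by
  classical
  induction S using Finset.induction_on with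
  | empty => simp
  | insert j s hj ih => rw [Finset.sum_insert hj, Finset.prod_insert hj, zpow_add₀ hz, ih]

theorem prod_twist {ι : Type} [Fintype ι] (z : ℂ) (hz : z ≠ 0) (l : ι → ℤ) (u : ι → ℂ) (m : ℕ)
    (a : ι → ℕ) : ∏ i, ((z ^ l i * u i) ^ m) ^ a i =
      z ^ ((m : ℤ) * ∑ i, l i * a i) * ∏ i, (u i ^ m) ^ a i := by
  have h1 : (m : ℤ) * ∑ i, l i * (a i : ℤ) = ∑ i, (l i * ((m * a i : ℕ) : ℤ)) := by
    rw [Finset.mul_sum]
    refine Finset.sum_congr rfl fun i _ => ?_
    push_cast
    ring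
  rw [h1, zpow_sum _ z hz, ← Finset.prod_mul_distrib]
  refine Finset.prod_congr rfl fun i _ => ?_
  rw [zpow_mul, zpow_natCast, mul_pow, mul_pow, ← pow_mul, ← pow_mul]

/-- Laurent polynomials along the one-parameter group -/
theorem laurent_poly {n : ℕ} (S : MvPolynomial (Fin (n + 1)) ℂ) (l : Fin (n + 1) → ℤ)
    (u : Fin (n + 1) → ℂ) (m : ℕ) (N : ℤ)
    (hN : ∀ a ∈ S.support, 0 ≤ (m : ℤ) * ∑ i, l i * a i + N) :
    ∃ q : Polynomial ℂ, ∀ z : ℂ, z ≠ 0 →
      q.eval z = z ^ N * eval (fun i => (z ^ l i * u i) ^ m) S := by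
  classical
  refine ⟨∑ a ∈ S.support, Polynomial.C (S.coeff a * ∏ i, (u i ^ m) ^ a i) *
    Polynomial.X ^ ((m : ℤ) * ∑ i, l i * a i + N).toNat, fun z hz => ?_⟩
  rw [Polynomial.eval_finsetSum, eval_eq', Finset.mul_sum]
  refine Finset.sum_congr rfl fun a ha => ?_
  rw [Polynomial.eval_mul, Polynomial.eval_C, Polynomial.eval_pow, Polynomial.eval_X,
    prod_twist z hz, ← zpow_natCast z, Int.toNat_of_nonneg (hN a ha), zpow_add₀ hz]
  ring

theorem eval_twist {n : ℕ} (G : MvPolynomial (Fin (n + 1)) ℂ) (l : Fin (n + 1) → ℤ)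
    (u : Fin (n + 1) → ℂ) (m : ℕ) (k : ℤ) (hG : ∀ c ∈ G.support, ∑ i, l i * c i = k)
    (z : ℂ) (hz : z ≠ 0) :
    eval (fun i => (z ^ l i * u i) ^ m) G = z ^ ((m : ℤ) * k) * eval (fun i => u i ^ m) G := by
  classical
  rw [eval_eq', eval_eq', Finset.mul_sum]
  refine Finset.sum_congr rfl fun a ha => ?_
  rw [prod_twist z hz, hG a ha]
  ring

/-- derivations of values of homogeneous polynomials -/
theorem der_aeval {K : Type} [Field K] [Algebra ℂ K] (δ : Derivation ℂ K K) {σ : Type}
    [Fintype σ] (x : σ → K) (lam : σ → ℤ) (hx : ∀ i, δ (x i) = (lam i : ℂ) • x i)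
    (P : MvPolynomial σ ℂ) (k : ℤ) (hP : ∀ c ∈ P.support, ∑ i, lam i * c i = k) :
    δ (aeval x P) = (k : ℂ) • aeval x P := by
  classical
  rw [aeval_def, eval₂_eq', map_sum, Finset.smul_sum]
  refine Finset.sum_congr rfl fun a ha => ?_
  rw [← Algebra.smul_def, Derivation.map_smul, der_mon δ x lam hx, hP a ha, smul_comm]

/-- the derivation of a root of an eigenvector -/
theorem der_root {K : Type} [Field K] [Algebra ℂ K] (δ : Derivation ℂ K K) (W : K) (hW : W ≠ 0)
    (e : ℕ) (he : 0 < e) (c : ℤ) (h : δ (W ^ e) = ((e * c : ℤ) : ℂ) • W ^ e) :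
    δ W = (c : ℂ) • W := by
  have : CharZero K := charZero_of_injective_algebraMap (algebraMap ℂ K).injective
  rw [δ.leibniz_pow] at h
  obtain ⟨e, rfl⟩ := Nat.exists_eq_succ_of_ne_zero he.ne'
  simp only [nsmul_eq_mul, smul_eq_mul, Nat.succ_eq_add_one, Nat.add_sub_cancel] at h
  simp only [Algebra.smul_def, map_intCast] at h ⊢
  push_cast at h
  have h1 : ((e : K) + 1) * W ^ e ≠ 0 := by
    refine mul_ne_zero ?_ (pow_ne_zero _ hW)
    exact_mod_cast Nat.succ_ne_zero e
  apply mul_left_cancel₀ h1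
  rw [pow_succ] at h
  linear_combination h

open Pool.Agent.Y192.KC

theorem t_red : St_red := by
  classical
  intro n r X m hm hem hRed L _ _ t w hF hPG
  obtain ⟨B0, D0, hB0, hB0ne, hcurves⟩ := hPG
  obtain ⟨l, ⟨i1, i2, hl⟩, ⟨kG, hG⟩, hHS⟩ := hRed
  -- normalised factorisations
  have hHS' : ∀ j, ∃ (H S : MvPolynomial (Fin (n + 1)) ℂ) (k : ℤ), X.F j = H * S ^ X.e j ∧
      (∀ c ∈ H.support, ∑ i, l i * c i = k) ∧ (X.d j = 0 → S = 1 ∧ k = 0) := by
    intro j
    by_cases hd : X.d j = 0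
    · refine ⟨X.F j, 1, 0, by rw [one_pow, mul_one], fun c hc => ?_, fun _ => ⟨rfl, rfl⟩⟩
      have h1 := X.hF j (mem_support_iff.1 hc)
      rw [hd, Finsupp.weight_apply, Finsupp.sum_fintype _ _ (by simp)] at h1
      have h2 : ∀ i, c i = 0 := by
        intro i
        have := (Finset.sum_eq_zero_iff.1 h1) i (Finset.mem_univ i)
        simpa using this
      simp [h2]
    · obtain ⟨H, S, h1, k, h2⟩ := hHS j
      exact ⟨H, S, k, h1, h2, fun h => absurd h hd⟩
  choose H S k hFH hHom hd0 using hHS'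
  have hS0 : ∀ j, S j ≠ 0 := by
    intro j h
    apply X.hF0 j
    rw [hFH, h, zero_pow (X.he j).ne', mul_zero]
  have hH0 : ∀ j, H j ≠ 0 := by
    intro j h
    apply X.hF0 j
    rw [hFH, h, zero_mul]
  have hwt : ∀ j, X.wt m j * X.e j = m * X.d j := by
    intro j
    unfold Cov.wt
    obtain ⟨a, ha⟩ := hem j
    rw [ha, mul_assoc, Nat.mul_div_cancel_left _ (X.he j)]
    ring
  -- the cone
  let K := FractionRing (Polynomial L)
  let τ : K := algebraMap (Polynomial L) K Polynomial.X
  have hτ : Transcendental L τ := by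
    have h1 : Transcendental L (Polynomial.X : Polynomial L) := Polynomial.transcendental_X L
    exact (transcendental_algebraMap_iff (IsFractionRing.injective (Polynomial L) K)).2 h1
  have hτ0 : τ ≠ 0 := by
    intro h
    rw [h] at hτ
    exact hτ isAlgebraic_zero
  let T : Fin (n + 1) → K := fun i => algebraMap L K (t i) * τ
  have hT : AlgebraicIndependent ℂ T := indep_cone t hF.ne hF.ind τ hτ
  have hTP : ∀ P : MvPolynomial (Fin (n + 1)) ℂ, P ≠ 0 → aeval (fun i => T i ^ m) P ≠ 0 := by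
    intro P hP h
    have h1 : aeval T (expand m P) = 0 := by
      rw [aeval_expand]
      exact h
    have h2 := (injective_iff_map_eq_zero _).1 hT _ h1
    exact hP ((expand_eq_zero hm).1 h2)
  let W : Fin r → K := fun j => algebraMap L K (w j) * τ ^ X.wt m j
  have hWe : ∀ j, W j ^ X.e j = aeval (fun i => T i ^ m) (X.F j) := by
    intro j
    have h1 : (fun i => T i ^ m) = fun i => (τ ^ m) ^ (1 : Fin (n + 1) → ℕ) i *
        algebraMap L K (t i ^ m) := by
      funext i
      simp only [T, Pi.one_apply, pow_one, mul_pow, map_pow]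
      ring
    have h2 : aeval (fun i => algebraMap L K (t i ^ m)) (X.F j) =
        algebraMap L K (aeval (fun i => t i ^ m) (X.F j)) := aeval_algebraMap_apply K _ _
    rw [h1, aeval_wh (X.hF j), h2, ← hF.eqn j, map_pow]
    simp only [W, mul_pow, ← pow_mul, hwt j]
    ring
  let W' : Fin r → K := fun j => W j / aeval (fun i => T i ^ m) (S j)
  have hW'e : ∀ j, W' j ^ X.e j = aeval (fun i => T i ^ m) (H j) := by
    intro j
    simp only [W', div_pow]
    rw [hWe, hFH, map_mul, map_pow, mul_div_cancel_right₀ _ (pow_ne_zero _ (hTP _ (hS0 j)))]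
  have hW'0 : ∀ j, W' j ≠ 0 := by
    intro j h
    have h1 := hW'e j
    rw [h, zero_pow (X.he j).ne'] at h1
    exact hTP _ (hH0 j) h1.symm
  -- the derivation
  obtain ⟨δ, hδ⟩ := exists_der_ind T hT (fun i => (l i : ℂ) • T i)
  have hδm : ∀ i, δ (T i ^ m) = ((m * l i : ℤ) : ℂ) • T i ^ m := by
    intro i
    have h1 := der_mon δ (fun _ : Unit => T i) (fun _ => l i) (fun _ => hδ i) (fun _ => m)
    simpa [mul_comm] using h1
  let c : Fin r → ℤ := fun j => ((m / X.e j : ℕ) : ℤ) * k j
  have hc : ∀ j, (X.e j : ℤ) * c j = m * k j := by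
    intro j
    have h1 : X.e j * (m / X.e j) = m := Nat.mul_div_cancel' (hem j)
    simp only [c]
    rw [← mul_assoc]
    congr 1
    exact_mod_cast h1
  have hδW : ∀ j, δ (W' j) = (c j : ℂ) • W' j := by
    intro j
    apply der_root δ (W' j) (hW'0 j) (X.e j) (X.he j)
    rw [hW'e]
    apply der_aeval δ (fun i => T i ^ m) (fun i => m * l i) hδm
    intro a ha
    rw [hc j, ← hHom j a ha, Finset.mul_sum]
    exact Finset.sum_congr rfl fun i _ => by ring
  let x : Fin (n + 1) ⊕ Fin r → K := Sum.elim T W'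
  let lam : Fin (n + 1) ⊕ Fin r → ℤ := Sum.elim l c
  have hx : ∀ i, δ (x i) = (lam i : ℂ) • x i := by
    rintro (i | j)
    · exact hδ i
    · exact hδW j
  -- the substitution
  let sharp : Poly n r →ₐ[ℂ] Poly n r := aeval (Sum.elim (fun i => MvPolynomial.X (Sum.inl i))
    (fun j => MvPolynomial.X (Sum.inr j) * aeval (fun i => MvPolynomial.X (Sum.inl i) ^ m) (S j)))
  have hsharp : ∀ B, aeval x (sharp B) = aeval (Sum.elim T W) B := by
    intro B
    rw [← AlgHom.comp_apply, comp_aeval]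
    congr 2
    funext i
    rcases i with i | j
    · simp [x]
    · simp only [Sum.elim_inr, map_mul, aeval_X, x, W']
      rw [← AlgHom.comp_apply, comp_aeval]
      simp only [map_pow, aeval_X, Sum.elim_inl]
      rw [div_mul_cancel₀ _ (hTP _ (hS0 j))]
  have hcone : ∀ (B : Poly n r) (D : ℕ), WH X m B D →
      aeval (Sum.elim T W) B = τ ^ D * algebraMap L K (aeval (Sum.elim t w) B) := by
    intro B D hB
    have h1 : Sum.elim T W = fun i => τ ^ (Sum.elim (fun _ => 1) (X.wt m) : _ → ℕ) i *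
        algebraMap L K (Sum.elim t w i) := by
      funext i
      rcases i with i | j
      · simp only [Sum.elim_inl, T, pow_one]; ring
      · simp only [Sum.elim_inr, W]; ring
    have h2 : aeval (fun i => algebraMap L K (Sum.elim t w i)) B =
        algebraMap L K (aeval (Sum.elim t w) B) := aeval_algebraMap_apply K _ _
    rw [h1, aeval_wh hB, h2]
  -- a general point
  let C0 : Poly n r := sharp B0 * (∏ i, MvPolynomial.X (Sum.inl i)) * aeval (fun i => MvPolynomial.X (Sum.inl i) ^ m) X.G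
  have hC0 : aeval x C0 ≠ 0 := by
    simp only [C0, map_mul, map_prod, aeval_X]
    refine mul_ne_zero (mul_ne_zero ?_ ?_) ?_
    · rw [hsharp, hcone B0 D0 hB0]
      exact mul_ne_zero (pow_ne_zero _ hτ0) ((map_ne_zero _).2 hB0ne)
    · exact Finset.prod_ne_zero_iff.2 fun i _ => hT.ne_zero i
    · rw [← AlgHom.comp_apply, comp_aeval]
      simp only [map_pow, aeval_X]
      exact hTP _ X.hG0
  obtain ⟨v, hv, hvC⟩ : ∃ v : Fin (n + 1) ⊕ Fin r → ℂ,
      (∀ P : Poly n r, aeval x P = 0 → eval v P = 0) ∧ eval v C0 ≠ 0 := by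
    by_contra hcon
    push Not at hcon
    apply hC0
    have h1 : C0 ∈ vanishingIdeal ℂ (zeroLocus ℂ (RingHom.ker (aeval x : Poly n r →ₐ[ℂ] K))) := by
      intro v hv
      exact hcon v fun P hP => hv P hP
    have h2 : (RingHom.ker (aeval x : Poly n r →ₐ[ℂ] K)).IsPrime := RingHom.ker_isPrime _
    rw [IsPrime.vanishingIdeal_zeroLocus] at h1
    exact h1
  simp only [C0, map_mul, map_prod, eval_X] at hvC
  have hvB := left_ne_zero_of_mul (left_ne_zero_of_mul hvC)
  have hvu : ∀ i, v (Sum.inl i) ≠ 0 := fun i =>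
    Finset.prod_ne_zero_iff.1 (right_ne_zero_of_mul (left_ne_zero_of_mul hvC)) i
      (Finset.mem_univ i)
  have hvG := right_ne_zero_of_mul hvC
  let u : Fin (n + 1) → ℂ := fun i => v (Sum.inl i)
  let v' : Fin r → ℂ := fun j => v (Sum.inr j)
  have hev : ∀ (y : Fin (n + 1) ⊕ Fin r → ℂ) (B : Poly n r), eval y (sharp B) =
      eval (Sum.elim (fun i => y (Sum.inl i))
        (fun j => y (Sum.inr j) * eval (fun i => y (Sum.inl i) ^ m) (S j))) B := by
    intro y B
    have h1 : ∀ (z : Fin (n + 1) ⊕ Fin r → ℂ) (Q : Poly n r), eval z Q = aeval z Q :=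
      fun z Q => rfl
    rw [h1, h1, ← AlgHom.comp_apply, comp_aeval]
    congr 2
    funext i
    rcases i with i | j
    · simp
    · simp only [Sum.elim_inr, map_mul, aeval_X]
      rw [← AlgHom.comp_apply, comp_aeval]
      simp only [map_pow, aeval_X]
      rfl
  -- the exponents
  let M : ℕ := ∑ i, (l i).natAbs +
    ∑ j, ∑ a ∈ (S j).support, ((m : ℤ) * ∑ i, l i * a i + c j).natAbs
  have hM1 : ∀ i, 0 ≤ l i + M := by
    intro i
    have h1 : (l i).natAbs ≤ M :=
      (Finset.single_le_sum (f := fun i => (l i).natAbs) (fun _ _ => Nat.zero_le _)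
        (Finset.mem_univ i)).trans (Nat.le_add_right _ _)
    omega
  have hM2 : ∀ j, ∀ a ∈ (S j).support,
      0 ≤ (m : ℤ) * ∑ i, l i * a i + (c j + M * X.wt m j) := by
    intro j a ha
    by_cases hd : X.d j = 0
    · obtain ⟨h1, h2⟩ := hd0 j hd
      rw [h1] at ha
      have h3 : a = 0 := by
        by_contra h4
        rw [mem_support_iff, coeff_one, if_neg (Ne.symm h4)] at ha
        exact ha rfl
      have h4 : c j = 0 := by simp only [c, h2, mul_zero]
      rw [h3, h4]
      simp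
      positivity
    · have h1 : 1 ≤ X.wt m j := by
        rw [Nat.one_le_iff_ne_zero]
        intro h
        have h2 := hwt j
        rw [h, zero_mul] at h2
        exact (Nat.mul_ne_zero hm.ne' hd) h2.symm
      have h2 : ((m : ℤ) * ∑ i, l i * a i + c j).natAbs ≤ M := by
        refine le_trans ?_ (Nat.le_add_left _ _)
        refine le_trans ?_ (Finset.single_le_sum
          (f := fun j => ∑ a ∈ (S j).support, ((m : ℤ) * ∑ i, l i * a i + c j).natAbs)
          (fun _ _ => Nat.zero_le _) (Finset.mem_univ j))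
        exact Finset.single_le_sum (f := fun a : Fin (n + 1) →₀ ℕ =>
          ((m : ℤ) * ∑ i, l i * a i + c j).natAbs) (fun _ _ => Nat.zero_le _) ha
      have h3 : (M : ℤ) ≤ M * X.wt m j := by
        have : (M : ℤ) * 1 ≤ M * X.wt m j :=
          mul_le_mul_of_nonneg_left (by exact_mod_cast h1) (by positivity)
        linarith
      omega
  -- the curve
  have hq : ∀ j, ∃ q : Polynomial ℂ, ∀ z : ℂ, z ≠ 0 →
      q.eval z = z ^ (c j + M * X.wt m j) * eval (fun i => (z ^ l i * u i) ^ m) (S j) :=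
    fun j => laurent_poly (S j) l u m _ (hM2 j)
  choose q hq using hq
  let p : Fin (n + 1) → Polynomial ℂ := fun i =>
    Polynomial.C (u i) * Polynomial.X ^ (l i + M).toNat
  let s : Fin r → Polynomial ℂ := fun j => Polynomial.C (v' j) * q j
  have hp : ∀ i (z : ℂ), z ≠ 0 → (p i).eval z = z ^ M * (z ^ l i * u i) := by
    intro i z hz
    simp only [p, Polynomial.eval_mul, Polynomial.eval_C, Polynomial.eval_pow, Polynomial.eval_X]
    rw [← zpow_natCast z (l i + M).toNat, Int.toNat_of_nonneg (hM1 i), zpow_add₀ hz, zpow_natCast]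
    ring
  have hs : ∀ j (z : ℂ), z ≠ 0 → (s j).eval z = (z ^ M) ^ X.wt m j *
      (z ^ c j * v' j * eval (fun i => (z ^ l i * u i) ^ m) (S j)) := by
    intro j z hz
    simp only [s, Polynomial.eval_mul, Polynomial.eval_C, hq j z hz]
    rw [zpow_add₀ hz]
    have h1 : z ^ ((M : ℤ) * X.wt m j) = (z ^ M) ^ X.wt m j := by
      rw [← pow_mul, ← zpow_natCast]
      push_cast
      rfl
    rw [h1]
    ring
  have hevB : ∀ (B : Poly n r) (D : ℕ), WH X m B D → ∀ z : ℂ, z ≠ 0 →
      eval (Sum.elim (fun i => (p i).eval z) (fun j => (s j).eval z)) B =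
        (z ^ M) ^ D * eval (fun i => z ^ lam i * v i) (sharp B) := by
    intro B D hB z hz
    rw [hev]
    have h1 : (Sum.elim (fun i => (p i).eval z) (fun j => (s j).eval z) :
        Fin (n + 1) ⊕ Fin r → ℂ) = fun i => (z ^ M) ^ (Sum.elim (fun _ => 1) (X.wt m) : _ → ℕ) i *
          (Sum.elim (fun i => z ^ l i * u i)
            (fun j => z ^ c j * v' j * eval (fun i => (z ^ l i * u i) ^ m) (S j))) i := by
      funext i
      rcases i with i | j
      · simp only [Sum.elim_inl, pow_one, hp i z hz]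
      · simp only [Sum.elim_inr, hs j z hz]
    rw [h1]
    exact aeval_wh hB (z ^ M) _
  have hGm : GmCurve X m t w p s := by
    refine ⟨fun z hz => ⟨?_, ?_, ?_⟩, 2, 1, two_ne_zero, one_ne_zero, ?_⟩
    · intro h
      have h1 := congrFun h 0
      simp only [hp 0 z hz, Pi.zero_apply] at h1
      exact mul_ne_zero (pow_ne_zero _ hz) (mul_ne_zero (zpow_ne_zero _ hz) (hvu 0)) h1
    · intro B D hB hBt
      rw [hevB B D hB z hz]
      have h1 : aeval x (sharp B) = 0 := by
        rw [hsharp, hcone B D hB, hBt, map_zero, mul_zero]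
      rw [twist_point δ x lam hx v hv z hz _ h1, mul_zero]
    · have h1 : (fun i => (p i).eval z ^ m) = fun i => (z ^ (M * m)) ^
          (1 : Fin (n + 1) → ℕ) i * (z ^ l i * u i) ^ m := by
        funext i
        rw [hp i z hz, Pi.one_apply, pow_one, mul_pow, pow_mul]
      have h2 := aeval_wh X.hG (z ^ (M * m)) (fun i => (z ^ l i * u i) ^ m)
      rw [← h1] at h2
      change aeval (fun i => (p i).eval z ^ m) X.G ≠ 0
      rw [h2]
      refine mul_ne_zero (pow_ne_zero _ (pow_ne_zero _ hz)) ?_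
      have h3 := eval_twist X.G l u m kG hG z hz
      change eval (fun i => (z ^ l i * u i) ^ m) X.G ≠ 0
      rw [h3]
      refine mul_ne_zero (zpow_ne_zero _ hz) ?_
      have h4 : eval v (aeval (fun i => MvPolynomial.X (Sum.inl i) ^ m : _ → Poly n r) X.G) =
          eval (fun i => u i ^ m) X.G := by
        have h5 : ∀ Q : Poly n r, eval v Q = aeval v Q := fun Q => rfl
        rw [h5, ← AlgHom.comp_apply, comp_aeval]
        simp only [map_pow, aeval_X]
        rfl
      rw [← h4]
      exact hvG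
    · rintro ⟨a, ha, h1, -⟩
      have h2 : ∀ i, a * 2 ^ M * (2 : ℂ) ^ l i = 1 := by
        intro i
        have h3 := h1 i
        simp only [hp i 1 one_ne_zero, hp i 2 two_ne_zero, one_pow, one_zpow, one_mul] at h3
        apply mul_right_cancel₀ (hvu i)
        rw [one_mul]
        change a * 2 ^ M * (2 : ℂ) ^ l i * u i = u i
        linear_combination -h3
      have h3 : (2 : ℂ) ^ l i1 = (2 : ℂ) ^ l i2 := by
        apply mul_left_cancel₀ (mul_ne_zero ha (pow_ne_zero M (two_ne_zero : (2 : ℂ) ≠ 0)))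
        rw [h2, h2]
      have h4 : (2 : ℝ) ^ l i1 = (2 : ℝ) ^ l i2 := by
        have h5 := congrArg norm h3
        simpa [norm_zpow] using h5
      exact hl (zpow_right_injective₀ (by norm_num) (by norm_num) h4)
  have hfin := hcurves p s hGm 1 one_ne_zero
  rw [hevB B0 D0 hB0 1 one_ne_zero] at hfin
  simp only [one_pow, one_zpow, one_mul] at hfin
  exact hvB hfin

end Pool.Agent.Y270.KC
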